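import Pool.Agent.helper37.NE.SpecA
import Pool.Agent.helper83.GR.Ari

set_option autoImplicit false

/-!
# MP_baa4d7_al, NE, row YGD: the defects
-/

namespace Pool.Agent.NE

open Pool.Agent.helper58.DC Pool.Agent.DI Pool.Agent.GR Pool.Agent.OB Pool.Agent.DR Pool.Agent.FI Pool.Agent.FI3 Pool.Agent.FI4 Pool.Agent.FI4I Pool.Agent.LE Pool.Agent.L5 Pool.Agent.NAB Pool.Agent.ND

/-- pull a sign out of the double sum -/
theorem YGD_sum {A B : Type} (S : Set A) (a b : A → B → ℂ) (ε : ℂ) (hε : ε = 1 ∨ ε = -1) :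
    ∑ᶠ i ∈ S, ∑ᶠ j : B, a i j * (ε * b i j) = ε * ∑ᶠ i ∈ S, ∑ᶠ j : B, a i j * b i j := by
  rcases hε with rfl | rfl
  · simp only [one_mul]
  · have h : ∀ i j, a i j * (-1 * b i j) = -(a i j * b i j) := fun i j => by ring
    simp only [h]
    simp only [finsum_neg_distrib]
    ring

theorem YGD_um {M : Ideal (integralClosure ℤ ℂ)} {a b : ℂ} (h : b = a ∨ b = -a) : UM M a ↔ UM M b := by
  rcases h with rfl | rfl
  · exact Iff.rfl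
  · unfold UM
    constructor
    · rintro ⟨h1, h2⟩
      refine ⟨h1.neg, fun h3 => h2 ?_⟩
      have h4 := h3.neg
      rwa [neg_neg] at h4
    · rintro ⟨h1, h2⟩
      refine ⟨?_, fun h3 => h2 h3.neg⟩
      have h4 := h1.neg
      rwa [neg_neg] at h4

theorem YGD (hYUE : YUE_stmt) (hGVF : GVF_stmt) (hGDF : GDF_stmt) : YGD_stmt := by
  intro p e m t M hM G _ _ χ Z z₀ x₀ hZD ψ hψ ψ₁ hψ₁ f ε ε₁ hε hε₁ h h₁ d
  obtain ⟨z, x, hZ, hE, hu, hu₁, -, -, hc1, hc2, hc3⟩ := hYUE p e m t M hM G χ Z z₀ x₀ hZD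
  have v := hGVF p e m t M hM G χ Z z x hZ (⊤ : Subgroup G) le_top ψ hψ
  have v₁ := hGVF p e m t M hM G χ Z z x hZ (nz (Eg p e z₀)) (hc2.trans hc3) ψ₁ hψ₁
  have key : ∀ (φ : G → ℂ) (δ : ℂ), (δ = 1 ∨ δ = -1) →
      (∀ θ ∈ GS p e m M χ (cz Z) Z, ∀ ν : Z →* ℂˣ, mt (cz Z) φ θ - mt (cz Z) φ (st Z t ν θ) = δ * (f θ - f (st Z t ν θ))) →
      ∑ᶠ θ ∈ GS p e m M χ (cz Z) Z, ∑ᶠ ν : Z →* ℂˣ, θ (z * x) * lam Z t ν (z * x) * (mt (cz Z) φ θ - mt (cz Z) φ (st Z t ν θ)) =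
        δ * ∑ᶠ θ ∈ GS p e m M χ (cz Z) Z, ∑ᶠ ν : Z →* ℂˣ, θ (z * x) * lam Z t ν (z * x) * (f θ - f (st Z t ν θ)) := by
    intro φ δ hδ hφ
    rw [← YGD_sum _ _ _ δ hδ]
    refine finsum_mem_congr rfl (fun θ hθ => ?_)
    refine finsum_congr (fun ν => ?_)
    rw [hφ θ hθ ν]
  rw [key ψ ε hε h] at v
  rw [key ψ₁ ε₁ hε₁ h₁] at v₁
  have hv : ψ₁ (z * x) = ψ (z * x) ∨ ψ₁ (z * x) = -ψ (z * x) := by
    rcases hε with rfl | rfl <;> rcases hε₁ with rfl | rfl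
    · left; rw [v, v₁]
    · right; rw [v, v₁]; ring
    · right; rw [v, v₁]; ring
    · left; rw [v, v₁]
  rw [hGDF p e m M hM G (⊤ : Subgroup G) ψ hψ.1 z x (hu ψ hψ) le_top d,
    hGDF p e m M hM G (nz (Eg p e z₀)) ψ₁ hψ₁.1 z x (hu₁ ψ₁ hψ₁) (hc1.trans (hc2.trans hc3)) d]
  apply YGD_um
  rcases hv with hv | hv
  · left; rw [hv]
  · right; rw [hv]; ring

end Pool.Agent.NE
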